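import Pool.Agent.Lib.MP_5d78b4_mp.Main

set_option autoImplicit false

open Filter Topology
open scoped NNReal

namespace Pool.Agent.Results.MP_5d78b4_mp.Covering

/-- The inverse golden ratio. -/
noncomputable def alpha : ℝ := (Real.sqrt 5 - 1) / 2

/-- The Fibonacci potential `λ χ_[1-α,1)(nα mod 1)`. -/
noncomputable def pot (lam : ℝ) (n : ℤ) : ℝ :=
  lam * (Set.Ico (1 - alpha) 1).indicator (fun _ => (1 : ℝ)) (Int.fract (n * alpha))

/-- The box-counting dimension of `A` exists and equals `D`: with `N ε` the least number of closed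
balls of radius `ε` centred in `A` that cover `A`, all `N ε` are finite and
`log (N ε) / log (1/ε)` tends to `D` as `ε` decreases to `0`. -/
def HasBoxDim (A : Set ℂ) (D : ℝ) : Prop :=
  (∀ ε : ℝ≥0, 0 < ε → Metric.coveringNumber ε A ≠ ⊤) ∧
    Tendsto (fun ε : ℝ≥0 => Real.log (Metric.coveringNumber ε A).toNat / Real.log (1 / ε))
      (𝓝[>] 0) (𝓝 D)

/-- Bounded operators on a complex normed space. -/
abbrev Bdd (E : Type) [NormedAddCommGroup E] [NormedSpace ℂ E] : Type := E →L[ℂ] E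

/-- The image of a vector under a bounded operator. -/
def act {E : Type} [NormedAddCommGroup E] [NormedSpace ℂ E] (T : Bdd E) (x : E) : E := T x

/-- The spectrum of a bounded operator. -/
def spec {E : Type} [NormedAddCommGroup E] [NormedSpace ℂ E] (T : Bdd E) : Set ℂ := spectrum ℂ T

/-- The Hilbert space of square summable complex functions on `ι`. -/
abbrev L2 (ι : Type) : Type := lp (fun _ : ι => ℂ) 2

/-- Bounded operators on `L2 ι`. -/
abbrev Op (ι : Type) : Type := Bdd (L2 ι)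

/-- The value at `n` of the image of `ψ`. -/
noncomputable def app {ι : Type} (T : Op ι) (ψ : L2 ι) (n : ι) : ℂ := act T ψ n

/-- The spectrum of a bounded operator on `L2 ι`. -/
def Sp {ι : Type} (T : Op ι) : Set ℂ := spec T

/-- `H` is the Fibonacci Hamiltonian with coupling `lam`. -/
def IsFib (lam : ℝ) (H : Op ℤ) : Prop :=
  ∀ ψ n, app H ψ n = ψ (n + 1) + ψ (n - 1) + pot lam n * ψ n

/-- `H` is the `d`-dimensional Fibonacci Hamiltonian with coupling `lam`. -/
def IsFibDim (lam : ℝ) (d : ℕ) (H : Op (Fin d → ℤ)) : Prop :=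
  ∀ ψ n, app H ψ n =
    ∑ j, (ψ (n + Pi.single j 1) + ψ (n - Pi.single j 1) + pot lam (n j) * ψ n)

open Pool.Agent.Lib.MP_5d78b4_mp

theorem pot_eq (lam : ℝ) (n : ℤ) : pot lam n =
    lam * ((⌊((n : ℝ) + 1) * ((Real.sqrt 5 - 1) / 2)⌋
      - ⌊(n : ℝ) * ((Real.sqrt 5 - 1) / 2)⌋ : ℤ) : ℝ) := by
  have h1 : Real.sqrt 5 < 3 := (Real.sqrt_lt' (by norm_num)).2 (by norm_num)
  have h2 : 1 < Real.sqrt 5 := Real.lt_sqrt_of_sq_lt (by norm_num)
  unfold pot alpha
  congr 1
  generalize hα : (Real.sqrt 5 - 1) / 2 = α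
  have a0 : 0 < α := by rw [← hα]; linarith
  have a1 : α < 1 := by rw [← hα]; linarith
  have f0 := Int.fract_nonneg (n * α)
  have f1 := Int.fract_lt_one (n * α)
  have f2 := Int.floor_add_fract (n * α)
  by_cases h : Int.fract (n * α) ∈ Set.Ico (1 - α) 1
  · have : ⌊((n : ℝ) + 1) * α⌋ = ⌊(n : ℝ) * α⌋ + 1 := by
      rw [Int.floor_eq_iff]; push_cast; constructor <;> linarith [h.1]
    rw [Set.indicator_of_mem h, this]; simp
  · have h' : Int.fract (n * α) < 1 - α := by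
      by_contra h'
      exact h ⟨not_lt.1 h', f1⟩
    have : ⌊((n : ℝ) + 1) * α⌋ = ⌊(n : ℝ) * α⌋ := by
      rw [Int.floor_eq_iff]; constructor <;> linarith
    rw [Set.indicator_of_notMem h, this]; simp

theorem log_mono {a b : ℕ} (h : a ≤ b) : Real.log a ≤ Real.log b := by
  rcases Nat.eq_zero_or_pos a with rfl | ha
  · simpa using Real.log_natCast_nonneg b
  · exact Real.log_le_log (by exact_mod_cast ha) (by exact_mod_cast h)

theorem cov_real {A : Set ℝ} (hA : Bornology.IsBounded A) {D : ℝ}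
    (h : Tendsto (fun m : ℕ => Real.log ((cnt A m : ℕ) : ℝ) / ((m : ℝ) * Real.log 2)) atTop (𝓝 D)) :
    (∀ ε : ℝ≥0, 0 < ε → Metric.coveringNumber ε A ≠ ⊤) ∧
    Tendsto (fun ε : ℝ≥0 => Real.log (Metric.coveringNumber ε A).toNat / Real.log (1 / ε))
      (𝓝[>] 0) (𝓝 D) := by
  classical
  have fin : ∀ ε : ℝ≥0, 0 < ε → Metric.coveringNumber ε A ≠ ⊤ := fun ε hε => by
    obtain ⟨N, h1, h2, h3⟩ := Metric.exists_finite_isCover_of_isCompact_closure hε.ne'
      hA.isCompact_closure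
    exact ne_top_of_le_ne_top h2.encard_lt_top.ne (h3.coveringNumber_le_encard h1)
  refine ⟨fin, ?_⟩
  let K : ℕ → Set ℤ := fun m => {k : ℤ | ∃ x ∈ A, (k : ℝ) ≤ 2 ^ m * x ∧ 2 ^ m * x ≤ (k : ℝ) + 1}
  have low : ∀ (ε : ℝ≥0) (m : ℕ), 0 < ε → (2 : ℝ) ^ m * ε ≤ 1 →
      (K m).Finite ∧ cnt A m ≤ 4 * (Metric.coveringNumber ε A).toNat := by
    intro ε m hε hm
    obtain ⟨C, -, hC, hcov, he⟩ := Metric.exists_set_encard_eq_coveringNumber (fin ε hε)
    have sub : K m ⊆ ((hC.toFinset ×ˢ Finset.range 4).image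
        fun p : ℝ × ℕ => ⌊2 ^ m * p.1⌋ - 2 + p.2 : Finset ℤ) := by
      rintro k ⟨x, hx, h1, h2⟩
      obtain ⟨c, hc, hxc⟩ := Set.mem_iUnion₂.1 (hcov.subset_iUnion_closedBall hx)
      rw [Metric.mem_closedBall, Real.dist_eq, abs_le] at hxc
      have p : (0 : ℝ) < 2 ^ m := by positivity
      have b1 : ⌊2 ^ m * c⌋ ≤ k + 2 := by
        rw [Int.floor_le_iff]; push_cast; nlinarith [hxc.1]
      have b2 : k - 1 ≤ ⌊2 ^ m * c⌋ := by
        rw [Int.le_floor]; push_cast; nlinarith [hxc.2]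
      refine Finset.mem_coe.2 (Finset.mem_image.2 ⟨(c, (k - ⌊2 ^ m * c⌋ + 2).toNat), ?_, ?_⟩)
      · rw [Finset.mem_product, Finset.mem_range]
        exact ⟨hC.mem_toFinset.2 hc, by simp only; omega⟩
      · simp only; omega
    refine ⟨(Finset.finite_toSet _).subset sub, ?_⟩
    refine (Set.ncard_le_ncard sub (Finset.finite_toSet _)).trans ?_
    rw [Set.ncard_coe_finset]
    refine Finset.card_image_le.trans ?_
    rw [Finset.card_product, Finset.card_range, ← he, hC.encard_eq_coe_toFinset_card, mul_comm]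
    simp
  have up : ∀ (ε : ℝ≥0) (m : ℕ), 1 ≤ (2 : ℝ) ^ m * ε →
      (Metric.coveringNumber ε A).toNat ≤ cnt A m := by
    intro ε m hm
    have p : (0 : ℝ) < 2 ^ m := by positivity
    have hK := (low ⟨(2 ^ m)⁻¹, by positivity⟩ m (by
      change (0 : ℝ) < (2 ^ m)⁻¹; positivity) (mul_inv_cancel₀ p.ne').le).1
    have : ∀ k : ℤ, ∃ x : ℝ, k ∈ K m → x ∈ A ∧ (k : ℝ) ≤ 2 ^ m * x ∧ 2 ^ m * x ≤ (k : ℝ) + 1 := by
      intro k
      by_cases hk : k ∈ K m
      · obtain ⟨x, hx⟩ := hk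
        exact ⟨x, fun _ => hx⟩
      · exact ⟨0, fun h => absurd h hk⟩
    choose f hf using this
    have hc : Metric.IsCover ε A (f '' K m) := by
      refine Metric.IsCover.of_subset_iUnion_closedBall fun x hx => ?_
      have a := Int.floor_le (2 ^ m * x)
      have b := Int.lt_floor_add_one (2 ^ m * x)
      have hk : ⌊2 ^ m * x⌋ ∈ K m := ⟨x, hx, a, b.le⟩
      obtain ⟨-, c, d⟩ := hf _ hk
      refine Set.mem_iUnion₂.2 ⟨_, ⟨_, hk, rfl⟩, ?_⟩
      rw [Metric.mem_closedBall, Real.dist_eq, abs_le]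
      constructor <;> nlinarith
    have := (hc.coveringNumber_le_encard (by rintro _ ⟨k, hk, rfl⟩; exact (hf k hk).1)).trans
      (Set.encard_image_le f _)
    exact ENat.toNat_le_toNat this hK.encard_lt_top.ne
  have l2 : 0 < Real.log 2 := Real.log_pos one_lt_two
  have t0 : Tendsto (fun ε : ℝ≥0 => Real.log (1 / ε) / Real.log 2) (𝓝[>] 0) atTop := by
    refine Tendsto.atTop_div_const l2 (Real.tendsto_log_atTop.comp ?_)
    simp only [one_div]
    refine tendsto_inv_nhdsGT_zero.comp (tendsto_nhdsWithin_iff.2 ⟨?_, ?_⟩)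
    · exact (NNReal.continuous_coe.tendsto 0).mono_left nhdsWithin_le_nhds
    · exact eventually_mem_nhdsWithin.mono fun ε hε => hε
  have t1 := tendsto_nat_floor_atTop (α := ℝ)
  have t2 : Tendsto (fun s : ℝ => (⌊s⌋₊ : ℝ) / s) atTop (𝓝 1) := tendsto_nat_floor_div_atTop
  have t3 : Tendsto (fun s : ℝ => s⁻¹) atTop (𝓝 0) := tendsto_inv_atTop_zero
  have L := ((h.comp t1).mul t2).sub (t3.const_mul 2)
  have U := (h.comp ((tendsto_add_atTop_nat 1).comp t1)).mul (t2.add t3)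
  rw [mul_one, mul_zero, sub_zero] at L
  rw [add_zero, mul_one] at U
  have key : ∀ᶠ ε : ℝ≥0 in 𝓝[>] 0, 0 < ε ∧ 1 ≤ Real.log (1 / ε) / Real.log 2 :=
    (eventually_mem_nhdsWithin.mono fun ε hε => hε).and (t0.eventually_ge_atTop 1)
  refine tendsto_of_tendsto_of_tendsto_of_le_of_le' (L.comp t0) (U.comp t0)
    (key.mono fun ε hε => ?_) (key.mono fun ε hε => ?_)
  all_goals
    obtain ⟨h0, h1⟩ := hε
    have h0' : (0 : ℝ) < ε := h0
    simp only [Function.comp]
    generalize hs : Real.log (1 / ε) / Real.log 2 = s at *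
    have e : Real.log (1 / ε) = s * Real.log 2 := by rw [← hs]; field_simp
    have m1 : (1 : ℝ) ≤ ⌊s⌋₊ := by exact_mod_cast Nat.le_floor (by simpa using h1)
    have f1 : (⌊s⌋₊ : ℝ) ≤ s := Nat.floor_le (by linarith)
    have f2 := Nat.lt_floor_add_one s
    have lg : ∀ m : ℕ, Real.log (2 ^ m * ε) = (m - s) * Real.log 2 := fun m => by
      rw [Real.log_mul (by positivity) h0'.ne', Real.log_pow, sub_mul, ← e, one_div, Real.log_inv]
      ring
    rw [e]
  · have a := log_mono (low ε ⌊s⌋₊ h0 ((Real.log_nonpos_iff (by positivity)).1 (by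
      rw [lg]; nlinarith))).2
    have b : Real.log ((4 * (Metric.coveringNumber ε A).toNat : ℕ) : ℝ) ≤
        2 * Real.log 2 + Real.log (Metric.coveringNumber ε A).toNat := by
      rcases Nat.eq_zero_or_pos (Metric.coveringNumber ε A).toNat with z | z
      · rw [z]; simp [l2.le]
      · push_cast
        rw [Real.log_mul (by norm_num) (by positivity), show (4 : ℝ) = 2 ^ 2 by norm_num,
          Real.log_pow]
        simp
    rw [le_div_iff₀ (by positivity)]
    have : (Real.log (cnt A ⌊s⌋₊) / (⌊s⌋₊ * Real.log 2) * (⌊s⌋₊ / s) - 2 * s⁻¹) * (s * Real.log 2) =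
        Real.log (cnt A ⌊s⌋₊) - 2 * Real.log 2 := by field_simp
    linarith
  · have a := log_mono (up ε (⌊s⌋₊ + 1) ((Real.log_nonneg_iff (by positivity)).1 (by
      rw [lg]; push_cast; nlinarith)))
    rw [div_le_iff₀ (by positivity)]
    have : Real.log (cnt A (⌊s⌋₊ + 1)) / ((⌊s⌋₊ + 1 : ℕ) * Real.log 2) * (⌊s⌋₊ / s + s⁻¹) *
        (s * Real.log 2) = Real.log (cnt A (⌊s⌋₊ + 1)) := by
      push_cast; field_simp
    linarith

theorem transfer {ι : Type} {T : Sum.L ι →L[ℂ] Sum.L ι} (hT : IsSelfAdjoint T) {S : Set ℝ}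
    (hS : S = {E : ℝ | (E : ℂ) ∈ spectrum ℂ T}) :
    dimH (spectrum ℂ T) = dimH S ∧ ∀ D : ℝ, Tendsto (fun m : ℕ =>
      Real.log ((cnt S m : ℕ) : ℝ) / ((m : ℝ) * Real.log 2)) atTop (𝓝 D) →
        HasBoxDim (spectrum ℂ T) D := by
  have e : spectrum ℂ T = Complex.ofReal '' S := by
    ext z
    rw [hS]
    refine ⟨fun hz => ?_, by rintro ⟨x, hx, rfl⟩; exact hx⟩
    have := hT.mem_spectrum_eq_re hz
    exact ⟨z.re, by rw [Set.mem_setOf_eq, ← this]; exact hz, this.symm⟩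
  have hb : Bornology.IsBounded S := by
    rw [hS]
    exact Complex.isometry_ofReal.antilipschitz.isBounded_preimage (spectrum.isBounded T)
  rw [e]
  refine ⟨Complex.isometry_ofReal.dimH_image S, fun D h => ?_⟩
  simpa only [HasBoxDim, Complex.isometry_ofReal.coveringNumber_image] using cov_real hb h

/-- The spectrum of the `d`-dimensional Fibonacci Hamiltonian has box-counting and Hausdorff
dimension `min 1 (d D)`, where `D` is the box-counting dimension in dimension one. -/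
theorem result (lam : ℝ) (hl : 0 < lam) (d : ℕ) (hd : 1 ≤ d) :
    ∃ (H : Op ℤ) (Hd : Op (Fin d → ℤ)), IsFib lam H ∧ IsFibDim lam d Hd ∧
      ∃ D : ℝ, HasBoxDim (Sp H) D ∧ HasBoxDim (Sp Hd) (min 1 (d * D)) ∧
        dimH (Sp Hd) = ENNReal.ofReal (min 1 (d * D)) := by
  have hV : ∀ n, |pot lam n| ≤ |lam| * 3 := fun n => by
    rw [pot_eq, abs_mul]
    exact mul_le_mul_of_nonneg_left (Sum.abs_floor_sub_le n) (abs_nonneg _)
  obtain ⟨H, hH', hHs⟩ := Sum.exists_op (Equiv.addRight (1 : ℤ)) (pot lam) (by positivity) hV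
  have hH : ∀ (u : Sum.L ℤ) (n : ℤ), H u n = u (n + 1) + u (n - 1) + pot lam n * u n :=
    fun u n => by
      rw [hH' u n, sub_eq_add_neg]
      rfl
  choose A hA' hAs using fun i : Fin d => Sum.exists_op
    (Equiv.addRight (Pi.single i (1 : ℤ) : Fin d → ℤ)) (fun n => pot lam (n i)) (by positivity)
    fun n => hV _
  have hT : ∀ (u : Sum.L (Fin d → ℤ)) (n : Fin d → ℤ), (∑ i, A i) u n =
      ∑ j, (u (n + Pi.single j 1) + u (n - Pi.single j 1) + pot lam (n j) * u n) := fun u n => by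
    rw [_root_.sum_apply, lp.coeFn_sum, Finset.sum_apply]
    refine Finset.sum_congr rfl fun i _ => ?_
    rw [hA' i u n, sub_eq_add_neg]
    rfl
  obtain ⟨D, h1, h2, h3⟩ := main_formula hl hd
  have e1 := transfer hHs (S := spec1 lam) (by
    ext E
    simp only [spec1, Set.mem_setOf_eq, ← pot_eq]
    refine ⟨?_, fun h => ⟨H, hH, h⟩⟩
    rintro ⟨T, hT', h⟩
    rwa [← Sum.ext_of_apply fun u n => (hT' u n).trans (hH u n).symm])
  have e2 := transfer (isSelfAdjoint_sum _ fun i (_ : i ∈ Finset.univ) => hAs i)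
    (S := specd lam d) (by
    ext E
    simp only [specd, Set.mem_setOf_eq, ← pot_eq]
    refine ⟨?_, fun h => ⟨_, hT, h⟩⟩
    rintro ⟨T, hT', h⟩
    rwa [← Sum.ext_of_apply fun u n => (hT' u n).trans (hT u n).symm])
  exact ⟨H, ∑ i, A i, hH, hT, D, e1.2 D h1, e2.2 _ h3, e2.1.trans h2⟩

end Pool.Agent.Results.MP_5d78b4_mp.Covering
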