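import Pool.Agent.Lib.MP_5d78b4_mp.Univ.Final

set_option autoImplicit false

open Filter Topology

namespace Pool.Agent.Results.MP_5d78b4_mp.Universal

/-- The inverse golden ratio. -/
noncomputable def alpha : ℝ := (Real.sqrt 5 - 1) / 2

/-- The Fibonacci potential `λ χ_[1-α,1)(nα mod 1)`. -/
noncomputable def pot (lam : ℝ) (n : ℤ) : ℝ :=
  lam * (Set.Ico (1 - alpha) 1).indicator (fun _ => (1 : ℝ)) (Int.fract (n * alpha))

/-- Bounded operators on a complex normed space. -/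
abbrev Bdd (E : Type) [NormedAddCommGroup E] [NormedSpace ℂ E] : Type := E →L[ℂ] E

/-- The image of a vector under a bounded operator. -/
def act {E : Type} [NormedAddCommGroup E] [NormedSpace ℂ E] (T : Bdd E) (x : E) : E := T x

/-- The spectrum of a bounded operator. -/
def spec {E : Type} [NormedAddCommGroup E] [NormedSpace ℂ E] (T : Bdd E) : Set ℂ := spectrum ℂ T

/-- The Hilbert space of square summable complex functions on `ι`. -/
abbrev L2 (ι : Type) : Type := lp (fun _ : ι => ℂ) 2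

/-- Bounded operators on `L2 ι`. -/
abbrev Op (ι : Type) : Type := Bdd (L2 ι)

/-- The value at `n` of the image of `ψ`. -/
noncomputable def app {ι : Type} (T : Op ι) (ψ : L2 ι) (n : ι) : ℂ := act T ψ n

/-- The real numbers in the spectrum of a bounded operator on `L2 ι`. -/
def Sp {ι : Type} (T : Op ι) : Set ℝ := {E : ℝ | (E : ℂ) ∈ spec T}

/-- `H` is the Fibonacci Hamiltonian with coupling `lam`. -/
def IsFib (lam : ℝ) (H : Op ℤ) : Prop :=
  ∀ ψ n, app H ψ n = ψ (n + 1) + ψ (n - 1) + pot lam n * ψ n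

/-- `T` is the separable operator in which `a j` times the Fibonacci Hamiltonian with coupling
`lam j` acts in direction `j`. -/
def IsSep {d : ℕ} (a lam : Fin d → ℝ) (T : Op (Fin d → ℤ)) : Prop :=
  ∀ ψ n, app T ψ n =
    ∑ j, a j * (ψ (n + Pi.single j 1) + ψ (n - Pi.single j 1) + pot (lam j) (n j) * ψ n)

/-- `log N / log 2^m`, where `N` is the number of closed dyadic intervals of length `2^-m` that
meet `A`. -/
noncomputable def rate (A : Set ℝ) (m : ℕ) : ℝ :=
  Real.log ({k : ℤ | ∃ x ∈ A, (k : ℝ) ≤ 2 ^ m * x ∧ 2 ^ m * x ≤ (k : ℝ) + 1}.ncard : ℕ) /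
    ((m : ℝ) * Real.log 2)

/-- Hausdorff dimension, as a real number. -/
noncomputable def hdim (A : Set ℝ) : ℝ := (dimH A).toReal

/-- Lower box-counting dimension. -/
noncomputable def lbox (A : Set ℝ) : ℝ := liminf (rate A) atTop

/-- Upper box-counting dimension. -/
noncomputable def ubox (A : Set ℝ) : ℝ := limsup (rate A) atTop

/-- Assouad dimension: the infimum of the `v ≥ 0` for which there is `C` such that the part of `K`
in any ball of radius `R` centred in `K` is covered by at most `C (R/r)^v` balls of radius `r`, for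
all `0 < r ≤ R`. -/
noncomputable def adim (K : Set ℝ) : ℝ :=
  sInf {v : ℝ | 0 ≤ v ∧ ∃ C : ℝ, ∀ x ∈ K, ∀ r R : ℝ, 0 < r → r ≤ R → ∃ T : Finset ℝ,
    (T.card : ℝ) ≤ C * (R / r) ^ v ∧ K ∩ Metric.closedBall x R ⊆ ⋃ y ∈ T, Metric.closedBall y r}

/-- The arithmetic sum of two sets. -/
def plus (A B : Set ℝ) : Set ℝ := {z : ℝ | ∃ x ∈ A, ∃ y ∈ B, x + y = z}

open Pool.Agent.Lib.MP_5d78b4_mp

theorem pot_eq (lam : ℝ) (n : ℤ) : pot lam n =
    lam * ((⌊((n : ℝ) + 1) * ((Real.sqrt 5 - 1) / 2)⌋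
      - ⌊(n : ℝ) * ((Real.sqrt 5 - 1) / 2)⌋ : ℤ) : ℝ) := by
  have h1 : Real.sqrt 5 < 3 := (Real.sqrt_lt' (by norm_num)).2 (by norm_num)
  have h2 : 1 < Real.sqrt 5 := Real.lt_sqrt_of_sq_lt (by norm_num)
  unfold pot alpha
  congr 1
  generalize hα : (Real.sqrt 5 - 1) / 2 = α
  have a0 : 0 < α := by rw [← hα]; linarith
  have a1 : α < 1 := by rw [← hα]; linarith
  have f0 := Int.fract_nonneg (n * α)
  have f1 := Int.fract_lt_one (n * α)
  have f2 := Int.floor_add_fract (n * α)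
  by_cases h : Int.fract (n * α) ∈ Set.Ico (1 - α) 1
  · have : ⌊((n : ℝ) + 1) * α⌋ = ⌊(n : ℝ) * α⌋ + 1 := by
      rw [Int.floor_eq_iff]; push_cast; constructor <;> linarith [h.1]
    rw [Set.indicator_of_mem h, this]; simp
  · have h' : Int.fract (n * α) < 1 - α := by
      by_contra h'
      exact h ⟨not_lt.1 h', f1⟩
    have : ⌊((n : ℝ) + 1) * α⌋ = ⌊(n : ℝ) * α⌋ := by
      rw [Int.floor_eq_iff]; constructor <;> linarith
    rw [Set.indicator_of_notMem h, this]; simp

/-- Universal dimension formula. Let `T` be the separable operator with weights `a j ≠ 0` and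
couplings `lam j > 0`, `D j` the box-counting dimension of the spectrum in direction `j`, and
`E = min 1 (∑ D j)`. For every closed window `W` whose interior meets the spectrum, every nonempty
compact `K` and each of Hausdorff, lower box and upper box dimension `f`, the set
`X = (Sp T ∩ W) + K` has `E + min 1 ((1 - E)/u) f K ≤ f X` for all `u > 0` with `adim K ≤ u`,
`f X ≤ min 1 (E + f K)`, and equality here if `adim K ≤ max (f K) (1 - E)`. -/
theorem result (d : ℕ) (a lam : Fin d → ℝ) (ha : ∀ j, a j ≠ 0) (hl : ∀ j, 0 < lam j) :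
    ∃ (H : Fin d → Op ℤ) (T : Op (Fin d → ℤ)) (D : Fin d → ℝ) (E : ℝ),
      (∀ j, IsFib (lam j) (H j) ∧ Tendsto (rate (Sp (H j))) atTop (𝓝 (D j))) ∧
      IsSep a lam T ∧ (Sp T).Nonempty ∧ E = min 1 (∑ j, D j) ∧
      ∀ W : Set ℝ, IsClosed W → (Sp T ∩ interior W).Nonempty →
        ∀ K : Set ℝ, IsCompact K → K.Nonempty → adim K ≤ 1 ∧
          ∀ f ∈ ({hdim, lbox, ubox} : Set (Set ℝ → ℝ)),
            (∀ u : ℝ, 0 < u → adim K ≤ u →
              E + min 1 ((1 - E) / u) * f K ≤ f (plus (Sp T ∩ W) K)) ∧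
            f (plus (Sp T ∩ W) K) ≤ min 1 (E + f K) ∧
            (adim K ≤ max (f K) (1 - E) → f (plus (Sp T ∩ W) K) = min 1 (E + f K)) := by
  have hV : ∀ j n, |pot (lam j) n| ≤ (∑ i, |lam i|) * 3 := fun j n => by
    rw [pot_eq, abs_mul]
    exact mul_le_mul (Finset.single_le_sum (f := fun i => |lam i|) (fun i _ => abs_nonneg _)
      (Finset.mem_univ j)) (Sum.abs_floor_sub_le n) (abs_nonneg _)
      (Finset.sum_nonneg fun i _ => abs_nonneg _)
  have hM : 0 ≤ (∑ i, |lam i|) * 3 := by positivity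
  choose H hH' _hHs using fun j => Sum.exists_op (Equiv.addRight (1 : ℤ)) (pot (lam j)) hM (hV j)
  have hH : ∀ j (u : Sum.L ℤ) (n : ℤ), H j u n = u (n + 1) + u (n - 1) + pot (lam j) n * u n :=
    fun j u n => by
      rw [hH' j u n, sub_eq_add_neg]
      rfl
  have e1 : ∀ j, Sp (H j) = spec1 (lam j) := fun j => by
    ext E
    simp only [spec1, Set.mem_ofPred_eq, ← pot_eq]
    refine ⟨fun h => ⟨H j, hH j, h⟩, ?_⟩
    rintro ⟨T, hT', h⟩
    rwa [Sum.ext_of_apply fun u n => (hT' u n).trans (hH j u n).symm] at h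
  obtain ⟨T, -, hT, hS⟩ := Univ.general2 (fun j => pot (lam j)) a ha hM hV
  have e2 : Sp T = Univ.wsum a fun j => spec1 (lam j) := by
    refine hS.trans (congrArg _ (funext fun j => ?_))
    simp only [spec1, ← pot_eq]
  choose D hD using fun j => Univ.exists_rate (hl j)
  refine ⟨H, T, D, _, fun j => ⟨hH j, by rw [e1]; exact hD j⟩, hT, ?_, rfl,
    fun W hW hne K hK hKn => ⟨Univ.asDim_le_one K, ?_⟩⟩
  · rw [e2]
    exact ⟨_, fun j => piR (hl j) true ω0, fun j => Univ.piR_mem _ _ _, rfl⟩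
  rw [e2] at hne ⊢
  have main := fun u hu hKu => Univ.univ_main lam a D hl ha hD W hW hne K hK hKn u hu hKu
    (plus ((Univ.wsum a fun j => spec1 (lam j)) ∩ W) K) rfl _ _ rfl rfl
  have one := main 1 one_pos (Univ.asDim_le_one K)
  have fin : ∀ s y : ℝ, (∀ u : ℝ, 0 < u → adim K ≤ u →
      min 1 (∑ j, D j) + min 1 ((1 - min 1 (∑ j, D j)) / u) * s ≤ y) →
      y ≤ min 1 (min 1 (∑ j, D j) + s) → (∀ u : ℝ, 0 < u → adim K ≤ u →
      min 1 (∑ j, D j) + min 1 ((1 - min 1 (∑ j, D j)) / u) * s ≤ y) ∧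
      y ≤ min 1 (min 1 (∑ j, D j) + s) ∧ (adim K ≤ max s (1 - min 1 (∑ j, D j)) →
        y = min 1 (min 1 (∑ j, D j) + s)) := fun s y h1 h2 =>
    ⟨h1, h2, fun h => h2.antisymm (Univ.eq_case (min_le_left _ _) (Univ.asDim_le_one K) h1 h)⟩
  rintro f (rfl | rfl | rfl)
  · exact fin _ _ (fun u hu h => (main u hu h).1.1) one.1.2
  · exact fin _ _ (fun u hu h => (main u hu h).2.1.1) one.2.1.2
  · exact fin _ _ (fun u hu h => (main u hu h).2.2.1) one.2.2.2

end Pool.Agent.Results.MP_5d78b4_mp.Universal
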